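import Pool.Agent.Lib.P76e.Chi

/-! # P76e.Bump6: a periodic bump of half-width `1/6` with almost optimal kinetic energy
`θ t = chi k (cos (2πt) - 1/2)`, `k = 1000`.  `θ ≠ 0` only if `cos (2πt) > 1/2`, i.e. `|t - round t| < 1/6`.
`|θ'| ≤ 2π |sin (2πt)|` there, so `∫ θ'² ≤ ∫_{-1/6}^{1/6} 4π² sin² (2πt) dt = 2π²/3 - π√3/2 < 3.86`;
`θ² ≥ u² - 2u/k` for `u = cos (2πt) - 1/2 ≥ 0`, so `∫ θ² ≥ 0.751/3 - 0.376 √3/π > 0.043`. -/

open MeasureTheory Filter Topology
open scoped ENNReal NNReal BigOperators ContDiff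

namespace Pool.Agent.P76e

namespace Bump6Aux

theorem Ico_eq (g : ℝ → ℝ) :
    ∫ t in Set.Ico (0:ℝ) 1, g t = ∫ t in (0:ℝ)..1, g t := by
  rw [intervalIntegral.integral_of_le zero_le_one, MeasureTheory.integral_Ico_eq_integral_Ioo,
    MeasureTheory.integral_Ioc_eq_integral_Ioo]

/-- the argument of the profile -/
noncomputable def u (t : ℝ) : ℝ := Real.cos (2 * Real.pi * t) - 1 / 2

/-- the bump -/
noncomputable def th (t : ℝ) : ℝ := chi 1000 (u t)

theorem u_cd : ContDiff ℝ ∞ u :=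
  (Real.contDiff_cos.comp (contDiff_const.mul contDiff_id)).sub contDiff_const

theorem th_cd : ContDiff ℝ ∞ th := (contDiff_chi 1000).comp u_cd

theorem u_per (t : ℝ) : u (t + 1) = u t := by
  unfold u
  rw [show 2 * Real.pi * (t + 1) = 2 * Real.pi * t + 2 * Real.pi by ring, Real.cos_add_two_pi]

theorem th_per : Function.Periodic th 1 := by
  intro t
  unfold th
  rw [u_per]

theorem th_nonneg (t : ℝ) : 0 ≤ th t := chi_nonneg (by norm_num) _

theorem u_nonpos {t : ℝ} (h1 : 1 / 6 ≤ t) (h2 : t ≤ 5 / 6) : u t ≤ 0 := by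
  have hpi := Real.pi_pos
  unfold u
  have key : Real.cos (2 * Real.pi * t) ≤ Real.cos (Real.pi / 3) := by
    rcases le_total t (1 / 2) with h | h
    · apply Real.cos_le_cos_of_nonneg_of_le_pi
      · positivity
      · nlinarith
      · nlinarith
    · rw [← Real.cos_two_pi_sub]
      apply Real.cos_le_cos_of_nonneg_of_le_pi
      · positivity
      · nlinarith
      · nlinarith
  rw [Real.cos_pi_div_three] at key
  linarith

theorem u_nonneg {t : ℝ} (h : |t| ≤ 1 / 6) : 0 ≤ u t := by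
  have hpi := Real.pi_pos
  unfold u
  have key : Real.cos (Real.pi / 3) ≤ Real.cos (2 * Real.pi * t) := by
    rw [← Real.cos_abs (2 * Real.pi * t), abs_mul, abs_of_pos (by positivity : (0:ℝ) < 2 * Real.pi)]
    apply Real.cos_le_cos_of_nonneg_of_le_pi
    · positivity
    · linarith
    · nlinarith
  rw [Real.cos_pi_div_three] at key
  linarith

theorem th_zero {t : ℝ} (h1 : 1 / 6 ≤ t) (h2 : t ≤ 5 / 6) : th t = 0 :=
  chi_of_nonpos (by norm_num) (u_nonpos h1 h2)

theorem deriv_th_zero {t : ℝ} (h : th t = 0) : deriv th t = 0 := by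
  apply IsLocalMin.deriv_eq_zero
  exact Filter.Eventually.of_forall fun s => by rw [h]; exact th_nonneg s

theorem deriv_th (t : ℝ) :
    deriv th t = deriv (chi 1000) (u t) * (-(2 * Real.pi * Real.sin (2 * Real.pi * t))) := by
  have h1 : HasDerivAt (chi 1000) (deriv (chi 1000) (u t)) (u t) :=
    ((contDiff_infty_iff_deriv.1 (contDiff_chi 1000)).1 _).hasDerivAt
  have h2 : HasDerivAt (fun t : ℝ => 2 * Real.pi * t) (2 * Real.pi * 1) t :=
    (hasDerivAt_id t).const_mul (2 * Real.pi)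
  have h3 : HasDerivAt u (-Real.sin (2 * Real.pi * t) * (2 * Real.pi * 1)) t :=
    h2.cos.sub_const (1 / 2)
  have h4 := (h1.comp t h3).deriv
  refine Eq.trans ?_ (h4.trans ?_)
  · rfl
  · ring

theorem deriv_th_sq (t : ℝ) :
    (deriv th t) ^ 2 ≤ 4 * Real.pi ^ 2 * Real.sin (2 * Real.pi * t) ^ 2 := by
  rw [deriv_th]
  obtain ⟨h1, h2⟩ := deriv_chi_mem (k := 1000) (by norm_num) (u t)
  set c := deriv (chi 1000) (u t)
  have h3 : c ^ 2 ≤ 1 := by nlinarith
  have h4 : 0 ≤ 4 * Real.pi ^ 2 * Real.sin (2 * Real.pi * t) ^ 2 := by positivity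
  calc (c * (-(2 * Real.pi * Real.sin (2 * Real.pi * t)))) ^ 2 =
      c ^ 2 * (4 * Real.pi ^ 2 * Real.sin (2 * Real.pi * t) ^ 2) := by ring
    _ ≤ 1 * (4 * Real.pi ^ 2 * Real.sin (2 * Real.pi * t) ^ 2) :=
        mul_le_mul_of_nonneg_right h3 h4
    _ = _ := one_mul _

theorem th_sq {t : ℝ} (h : 0 ≤ u t) : u t ^ 2 - 2 / 1000 * u t ≤ th t ^ 2 := by
  have h1 : u t - 1 / 1000 ≤ th t := chi_ge (by norm_num) (u t)
  have h2 := th_nonneg t
  rcases le_total (1 / 1000) (u t) with h3 | h3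
  · nlinarith
  · nlinarith [sq_nonneg (th t)]

/-- the integral over a period reduces to the support -/
theorem period {g : ℝ → ℝ} (hg : Continuous g) (hper : Function.Periodic g 1)
    (h0 : ∀ t, 1 / 6 ≤ t → t ≤ 5 / 6 → g t = 0) :
    ∫ t in Set.Ico (0:ℝ) 1, g t = ∫ t in (-(1 / 6) : ℝ)..(1 / 6), g t := by
  rw [Ico_eq]
  have h1 := hper.intervalIntegral_add_eq 0 (-(1 / 6))
  rw [zero_add] at h1
  rw [h1, ← intervalIntegral.integral_add_adjacent_intervals (b := 1 / 6)
    (hg.intervalIntegrable _ _) (hg.intervalIntegrable _ _)]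
  have h2 : ∫ t in (1 / 6 : ℝ)..(-(1 / 6) + 1), g t = 0 := by
    rw [show (-(1 / 6) + 1 : ℝ) = 5 / 6 by norm_num]
    have h3 : ∫ t in (1 / 6 : ℝ)..(5 / 6), g t = ∫ t in (1 / 6 : ℝ)..(5 / 6), (0 : ℝ) := by
      apply intervalIntegral.integral_congr
      intro t ht
      rw [Set.uIcc_of_le (by norm_num)] at ht
      exact h0 t ht.1 ht.2
    rw [h3, intervalIntegral.integral_zero]
  rw [h2, add_zero]

theorem sin_s : Real.sin (4 * Real.pi * (1 / 6)) = √3 / 2 := by
  rw [show 4 * Real.pi * (1 / 6) = Real.pi - Real.pi / 3 by ring, Real.sin_pi_sub,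
    Real.sin_pi_div_three]

theorem sin_t : Real.sin (2 * Real.pi * (1 / 6)) = √3 / 2 := by
  rw [show 2 * Real.pi * (1 / 6) = Real.pi / 3 by ring, Real.sin_pi_div_three]

theorem int_sin : ∫ t in (-(1 / 6) : ℝ)..(1 / 6),
    4 * Real.pi ^ 2 * Real.sin (2 * Real.pi * t) ^ 2 =
      2 / 3 * Real.pi ^ 2 - Real.pi * (√3 / 2) := by
  have h1 : ∀ t ∈ Set.uIcc (-(1 / 6) : ℝ) (1 / 6),
      HasDerivAt (fun t : ℝ => 2 * Real.pi ^ 2 * t - Real.pi / 2 * Real.sin (4 * Real.pi * t))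
        (4 * Real.pi ^ 2 * Real.sin (2 * Real.pi * t) ^ 2) t := by
    intro t _
    have h2 : HasDerivAt (fun t : ℝ => 4 * Real.pi * t) (4 * Real.pi * 1) t :=
      (hasDerivAt_id t).const_mul (4 * Real.pi)
    have h3 : HasDerivAt (fun t : ℝ => 2 * Real.pi ^ 2 * t) (2 * Real.pi ^ 2 * 1) t :=
      (hasDerivAt_id t).const_mul (2 * Real.pi ^ 2)
    have h4 := h3.sub (h2.sin.const_mul (Real.pi / 2))
    refine h4.congr_deriv ?_
    rw [show 4 * Real.pi * t = 2 * (2 * Real.pi * t) by ring, Real.cos_two_mul, Real.cos_sq']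
    ring
  rw [intervalIntegral.integral_eq_sub_of_hasDerivAt h1
    (Continuous.intervalIntegrable (by fun_prop) _ _)]
  rw [mul_neg (4 * Real.pi), Real.sin_neg, sin_s]
  ring

theorem int_u : ∫ t in (-(1 / 6) : ℝ)..(1 / 6), (u t ^ 2 - 2 / 1000 * u t) =
      751 / 3000 - 376 / 1000 * (√3 / Real.pi) := by
  have hpi := Real.pi_pos
  have h1 : ∀ t ∈ Set.uIcc (-(1 / 6) : ℝ) (1 / 6),
      HasDerivAt (fun t : ℝ => 751 / 1000 * t + 1 / (8 * Real.pi) * Real.sin (4 * Real.pi * t) -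
        1002 / 1000 / (2 * Real.pi) * Real.sin (2 * Real.pi * t))
        (u t ^ 2 - 2 / 1000 * u t) t := by
    intro t _
    have h2 : HasDerivAt (fun t : ℝ => 4 * Real.pi * t) (4 * Real.pi * 1) t :=
      (hasDerivAt_id t).const_mul (4 * Real.pi)
    have h3 : HasDerivAt (fun t : ℝ => 2 * Real.pi * t) (2 * Real.pi * 1) t :=
      (hasDerivAt_id t).const_mul (2 * Real.pi)
    have h5 : HasDerivAt (fun t : ℝ => (751 / 1000 : ℝ) * t) (751 / 1000 * 1) t :=
      (hasDerivAt_id t).const_mul (751 / 1000 : ℝ)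
    have h4 := (h5.add (h2.sin.const_mul (1 / (8 * Real.pi)))).sub
      (h3.sin.const_mul (1002 / 1000 / (2 * Real.pi)))
    refine h4.congr_deriv ?_
    unfold u
    rw [show 4 * Real.pi * t = 2 * (2 * Real.pi * t) by ring, Real.cos_two_mul]
    field_simp
    ring
  have hc : Continuous u := u_cd.continuous
  rw [intervalIntegral.integral_eq_sub_of_hasDerivAt h1
    (Continuous.intervalIntegrable (by fun_prop) _ _)]
  rw [mul_neg (4 * Real.pi), mul_neg (2 * Real.pi), Real.sin_neg, Real.sin_neg, sin_s, sin_t]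
  field_simp
  ring

theorem upper_th : ∫ t in Set.Ico (0:ℝ) 1, (deriv th t) ^ 2 ≤
    2 / 3 * Real.pi ^ 2 - Real.pi * (√3 / 2) := by
  have hcd : Continuous (deriv th) := (contDiff_infty_iff_deriv.1 th_cd).2.continuous
  have hper : Function.Periodic (deriv th) 1 := by
    intro x
    have h : (fun y => th (y + 1)) = th := funext th_per
    rw [← deriv_comp_add_const, h]
  rw [period (g := fun t => (deriv th t) ^ 2) (hcd.pow 2) (fun x => by simp only; rw [hper x])
    (fun t h1 h2 => by rw [deriv_th_zero (th_zero h1 h2)]; ring), ← int_sin]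
  apply intervalIntegral.integral_mono_on (by norm_num)
    ((hcd.pow 2).intervalIntegrable _ _) (Continuous.intervalIntegrable (by fun_prop) _ _)
  intro t _
  exact deriv_th_sq t

theorem lower_th : 751 / 3000 - 376 / 1000 * (√3 / Real.pi) ≤
    ∫ t in Set.Ico (0:ℝ) 1, th t ^ 2 := by
  have hc : Continuous u := u_cd.continuous
  rw [period (g := fun t => th t ^ 2) (th_cd.continuous.pow 2)
    (fun x => by simp only; rw [th_per x])
    (fun t h1 h2 => by rw [th_zero h1 h2]; ring), ← int_u]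
  apply intervalIntegral.integral_mono_on (by norm_num)
    (Continuous.intervalIntegrable (by fun_prop) _ _)
    ((th_cd.continuous.pow 2).intervalIntegrable _ _)
  intro t ht
  exact th_sq (u_nonneg (abs_le.2 ⟨ht.1, ht.2⟩))

theorem numbers : 43 / 1000 < 751 / 3000 - 376 / 1000 * (√3 / Real.pi) ∧
    2 / 3 * Real.pi ^ 2 - Real.pi * (√3 / 2) ≤ 386 / 100 := by
  have h1 := Real.pi_gt_d6
  have h2 := Real.pi_lt_d6
  have s1 : (1.73205 : ℝ) < √3 := Real.lt_sqrt_of_sq_lt (by norm_num)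
  have s2 : √3 < 1.732051 := (Real.sqrt_lt' (by norm_num)).2 (by norm_num)
  have h3 : √3 / Real.pi ≤ 0.55133 := by
    rw [div_le_iff₀ Real.pi_pos]
    norm_num at h1 s2 ⊢
    linarith
  constructor
  · norm_num at h3 ⊢
    linarith
  · have h4 : Real.pi ^ 2 ≤ 3.141593 ^ 2 := by gcongr
    have h5 : 3.141592 * 1.73205 ≤ Real.pi * √3 := by gcongr
    norm_num at h4 h5 ⊢
    linarith

end Bump6Aux

open Bump6Aux

theorem exists_theta6 :
    ∃ θ : ℝ → ℝ, ContDiff ℝ ∞ θ ∧ Function.Periodic θ 1 ∧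
      (∀ t, θ t ≠ 0 → |t - round t| < 1 / 6) ∧ 0 < ∫ t in Set.Ico (0:ℝ) 1, θ t ^ 2 ∧
      ∫ t in Set.Ico (0:ℝ) 1, (deriv θ t) ^ 2 ≤
        902 / 10 * ∫ t in Set.Ico (0:ℝ) 1, θ t ^ 2 := by
  obtain ⟨n1, n2⟩ := numbers
  refine ⟨th, th_cd, th_per, ?_, lt_of_lt_of_le (by linarith) lower_th,
    (upper_th.trans n2).trans ?_⟩
  · intro t ht
    by_contra hcon
    rw [not_lt] at hcon
    apply ht
    apply chi_of_nonpos (by norm_num)
    have hpi := Real.pi_pos
    have e : u t = u |t - round t| := by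
      unfold u
      rw [show 2 * Real.pi * |t - round t| = |2 * Real.pi * (t - round t)| by
        rw [abs_mul, abs_of_pos (by positivity : (0:ℝ) < 2 * Real.pi)], Real.cos_abs,
        show 2 * Real.pi * (t - round t) = 2 * Real.pi * t - (round t : ℤ) * (2 * Real.pi) by ring,
        Real.cos_sub_int_mul_two_pi]
    rw [e]
    exact u_nonpos hcon ((abs_sub_round t).trans (by norm_num))
  · have := lower_th
    linarith

end Pool.Agent.P76e
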