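import Pool.Agent.Lib.P76s.Defs

/-! # P76e.Chi: a smooth convex approximation of the positive part
`chi k t = t exp (-1/(kt))` for `t > 0`; with `s = 1/(kt)`: `chi' = (1+s) exp (-s) ≤ 1`,
`chi'' = k s³ exp (-s) ≥ 0`; all are `0` for `t ≤ 0`. -/

open MeasureTheory Filter Topology
open scoped ENNReal NNReal BigOperators ContDiff

namespace Pool.Agent.P76e

noncomputable def chi (k t : ℝ) : ℝ := t * expNegInvGlue (k * t)

variable {k t : ℝ}

theorem contDiff_chi (k : ℝ) : ContDiff ℝ ∞ (chi k) :=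
  contDiff_id.mul (expNegInvGlue.contDiff.comp (contDiff_const.mul contDiff_id))

theorem chi_of_nonpos (hk : 0 < k) (ht : t ≤ 0) : chi k t = 0 := by
  unfold chi
  rw [expNegInvGlue.zero_of_nonpos (mul_nonpos_of_nonneg_of_nonpos hk.le ht), mul_zero]

namespace ChiAux

theorem chi_pos_eq (hk : 0 < k) (ht : 0 < t) : chi k t = t * Real.exp (-(k * t)⁻¹) := by
  unfold chi expNegInvGlue
  rw [if_neg (not_le.2 (mul_pos hk ht))]

theorem of_ne {p : ℝ → Prop} (hc : IsClosed {t | p t}) (h : ∀ t, t ≠ 0 → p t) (t : ℝ) : p t := by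
  have hd : Dense ({0}ᶜ : Set ℝ) := dense_compl_singleton 0
  have h1 := hc.closure_subset_iff.2 (show ({0}ᶜ : Set ℝ) ⊆ {t | p t} from fun x hx => h x hx)
  rw [hd.closure_eq] at h1
  exact h1 (Set.mem_univ t)

theorem hasDerivAt_inv (hk : 0 < k) (ht : 0 < t) :
    HasDerivAt (fun u : ℝ => (k * u)⁻¹) (-k / (k * t) ^ 2) t := by
  have hkt : k * t ≠ 0 := by positivity
  have h1 := ((hasDerivAt_id t).const_mul k).inv hkt
  rw [mul_one] at h1
  exact h1

theorem hasDerivAt_exp (hk : 0 < k) (ht : 0 < t) :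
    HasDerivAt (fun u : ℝ => Real.exp (-(k * u)⁻¹))
      (Real.exp (-(k * t)⁻¹) * (k / (k * t) ^ 2)) t := by
  have h1 := (hasDerivAt_inv hk ht).neg.exp
  refine h1.congr_deriv ?_
  rw [neg_div, neg_neg]
  rfl

theorem hasDerivAt_chi (hk : 0 < k) (ht : 0 < t) :
    HasDerivAt (chi k) ((1 + (k * t)⁻¹) * Real.exp (-(k * t)⁻¹)) t := by
  have h3 := (hasDerivAt_id t).mul (hasDerivAt_exp hk ht)
  have h4 : chi k =ᶠ[𝓝 t] (id * fun u : ℝ => Real.exp (-(k * u)⁻¹)) := by
    filter_upwards [lt_mem_nhds ht] with u hu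
    rw [chi_pos_eq hk hu]
    rfl
  refine (h3.congr_of_eventuallyEq h4).congr_deriv ?_
  simp only [id_eq]
  field_simp

theorem deriv_neg (hk : 0 < k) (ht : t < 0) : (deriv (chi k)) =ᶠ[𝓝 t] fun _ => (0 : ℝ) := by
  filter_upwards [gt_mem_nhds ht] with u hu
  have h1 : chi k =ᶠ[𝓝 u] fun _ => (0 : ℝ) := by
    filter_upwards [gt_mem_nhds hu] with v hv
    exact chi_of_nonpos hk (le_of_lt hv)
  rw [h1.deriv_eq, deriv_const]

theorem dd_pos (hk : 0 < k) (ht : 0 < t) :
    deriv (deriv (chi k)) t = Real.exp (-(k * t)⁻¹) * (k / (k * t) ^ 3) := by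
  have h1 : deriv (chi k) =ᶠ[𝓝 t]
      ((fun u : ℝ => 1 + (k * u)⁻¹) * fun u : ℝ => Real.exp (-(k * u)⁻¹)) := by
    filter_upwards [lt_mem_nhds ht] with u hu
    rw [(hasDerivAt_chi hk hu).deriv]
    rfl
  have h2 := ((hasDerivAt_inv hk ht).const_add 1).mul (hasDerivAt_exp hk ht)
  rw [h1.deriv_eq, h2.deriv]
  field_simp
  ring

end ChiAux

open ChiAux

theorem chi_nonneg (hk : 0 < k) (t : ℝ) : 0 ≤ chi k t := by
  rcases le_or_gt t 0 with ht | ht
  · rw [chi_of_nonpos hk ht]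
  · rw [chi_pos_eq hk ht]
    positivity

theorem chi_le (hk : 0 < k) (ht : 0 ≤ t) : chi k t ≤ t := by
  rcases ht.eq_or_lt with h0 | h0
  · rw [chi_of_nonpos hk h0.ge, ← h0]
  · rw [chi_pos_eq hk h0]
    have h1 : Real.exp (-(k * t)⁻¹) ≤ 1 := Real.exp_le_one_iff.2 (neg_nonpos.2 (by positivity))
    calc t * Real.exp (-(k * t)⁻¹) ≤ t * 1 := mul_le_mul_of_nonneg_left h1 ht
      _ = t := mul_one t

theorem chi_ge (hk : 0 < k) (t : ℝ) : t - 1 / k ≤ chi k t := by
  rcases le_or_gt t 0 with ht | ht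
  · rw [chi_of_nonpos hk ht]
    have : 0 < 1 / k := by positivity
    linarith
  · rw [chi_pos_eq hk ht]
    have h1 := Real.add_one_le_exp (-(k * t)⁻¹)
    have h2 : t * (-(k * t)⁻¹ + 1) = t - 1 / k := by
      field_simp
      ring
    rw [← h2]
    exact mul_le_mul_of_nonneg_left h1 ht.le

theorem deriv_chi_of_pos (hk : 0 < k) (ht : 0 < t) :
    deriv (chi k) t = (1 + 1 / (k * t)) * Real.exp (-(1 / (k * t))) := by
  rw [(hasDerivAt_chi hk ht).deriv, one_div]

theorem deriv_chi_mem (hk : 0 < k) (t : ℝ) : 0 ≤ deriv (chi k) t ∧ deriv (chi k) t ≤ 1 := by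
  have hc : Continuous (deriv (chi k)) := (contDiff_chi k).continuous_deriv (by simp)
  refine of_ne (p := fun t => 0 ≤ deriv (chi k) t ∧ deriv (chi k) t ≤ 1)
    ((isClosed_le continuous_const hc).inter (isClosed_le hc continuous_const)) (fun t ht => ?_) t
  rcases lt_or_gt_of_ne ht with h | h
  · rw [(deriv_neg hk h).eq_of_nhds]
    exact ⟨le_rfl, zero_le_one⟩
  · rw [(hasDerivAt_chi hk h).deriv]
    have h0 : 0 < (k * t)⁻¹ := by positivity
    refine ⟨by positivity, ?_⟩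
    rw [Real.exp_neg, ← div_eq_mul_inv, div_le_one (Real.exp_pos _)]
    have := Real.add_one_le_exp (k * t)⁻¹
    linarith

theorem deriv_deriv_chi_nonneg (hk : 0 < k) (t : ℝ) : 0 ≤ deriv (deriv (chi k)) t := by
  have hc1 : ContDiff ℝ ∞ (deriv (chi k)) := by
    have := contDiff_chi k
    rw [contDiff_infty_iff_deriv] at this
    exact this.2
  have hc : Continuous (deriv (deriv (chi k))) := hc1.continuous_deriv (by simp)
  refine of_ne (p := fun t => 0 ≤ deriv (deriv (chi k)) t)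
    (isClosed_le continuous_const hc) (fun t ht => ?_) t
  rcases lt_or_gt_of_ne ht with h | h
  · rw [(deriv_neg hk h).deriv_eq, deriv_const]
  · rw [dd_pos hk h]
    positivity

theorem monotone_deriv_chi (hk : 0 < k) : Monotone (deriv (chi k)) := by
  have hc1 : ContDiff ℝ ∞ (deriv (chi k)) := by
    have := contDiff_chi k
    rw [contDiff_infty_iff_deriv] at this
    exact this.2
  exact monotone_of_deriv_nonneg (hc1.differentiable (by simp)) (deriv_deriv_chi_nonneg hk)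

end Pool.Agent.P76e
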