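import Pool.Agent.Lib.P76h.Lap
import Pool.Agent.Lib.P76h.Flux

/-! # P76e.Radial: radial test functions `Ψ(‖x‖²/R² - 1 + h)`
(general versions of P76h.Test/Lap/Flux: LapAux.laplacian_radial, FTC for `r ↦ r³ Ψ'(r²/R² - 1 + h)`;
defect: `Ψ = 1` where `‖x‖² ≤ (1-h) R²`, shell volume `(4π/3) R³ (1 - (1-h)^{3/2}) ≤ 2π R³ h`) -/

open MeasureTheory Filter Topology
open scoped ENNReal NNReal BigOperators ContDiff SchwartzMap Laplacian

namespace Pool.Agent.P76e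

open Pool.Agent.P76s

variable {Ψ : ℝ → ℝ} {R h Y : ℝ}

namespace RadialAux

lemma d1 (hΨ : ContDiff ℝ ∞ Ψ) : ContDiff ℝ ∞ (deriv Ψ) := (contDiff_infty_iff_deriv.1 hΨ).2

lemma hd (hΨ : ContDiff ℝ ∞ Ψ) (t : ℝ) : HasDerivAt Ψ (deriv Ψ t) t :=
  ((contDiff_infty_iff_deriv.1 hΨ).1 t).hasDerivAt

lemma hg (R h s : ℝ) : HasDerivAt (fun s : ℝ => s / R ^ 2 - 1 + h) (1 / R ^ 2) s := by
  simpa using (((hasDerivAt_id s).div_const (R ^ 2)).sub_const 1).add_const h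

/-- the radial function is smooth -/
lemma contDiff_F (hΨ : ContDiff ℝ ∞ Ψ) :
    ContDiff ℝ ∞ (fun x : E3 => Ψ (‖x‖ ^ 2 / R ^ 2 - 1 + h)) :=
  hΨ.comp ((((contDiff_norm_sq ℝ).div_const (R ^ 2)).sub contDiff_const).add contDiff_const)

/-- polar coordinates -/
lemma ball_integral {g : ℝ → ℝ} (hR : 0 < R) :
    ∫ x in Metric.ball (0 : E3) R, g ‖x‖ = 4 * Real.pi * ∫ r in (0 : ℝ)..R, r ^ 2 * g r := by
  have h1 : ∫ x in Metric.ball (0 : E3) R, g ‖x‖ =
      ∫ x : E3, (Set.Iio R).indicator g ‖x‖ := by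
    rw [← integral_indicator Metric.isOpen_ball.measurableSet]
    refine integral_congr_ae (Eventually.of_forall fun x => ?_)
    show (Metric.ball (0 : E3) R).indicator (fun x => g ‖x‖) x = (Set.Iio R).indicator g ‖x‖
    simp [Set.indicator]
  rw [h1, integral_fun_norm_addHaar volume, P76h.FluxAux.vol]
  have h2 : ∫ y in Set.Ioi (0 : ℝ), y ^ (Module.finrank ℝ E3 - 1) •
      (Set.Iio R).indicator g y = ∫ r in (0 : ℝ)..R, r ^ 2 * g r := by
    rw [intervalIntegral.integral_of_le hR.le, integral_Ioc_eq_integral_Ioo,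
      ← integral_indicator measurableSet_Ioi, ← integral_indicator measurableSet_Ioo]
    refine integral_congr_ae (Eventually.of_forall fun y => ?_)
    simp only [Set.indicator, Set.mem_Ioi, Set.mem_Iio, Set.mem_Ioo, finrank_euclideanSpace,
      Fintype.card_fin, smul_eq_mul]
    by_cases h0 : 0 < y <;> by_cases h3 : y < R <;> simp [h0, h3]
  rw [h2]
  simp only [finrank_euclideanSpace, Fintype.card_fin, smul_eq_mul, nsmul_eq_mul]
  push_cast
  ring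

lemma vol_ball {r : ℝ} (hr : 0 ≤ r) :
    (volume : Measure E3).real (Metric.ball 0 r) = r ^ 3 * (Real.pi * 4 / 3) := by
  rw [Measure.real, EuclideanSpace.volume_ball_fin_three, ENNReal.toReal_mul, ENNReal.toReal_pow,
    ENNReal.toReal_ofReal hr, ENNReal.toReal_ofReal (by positivity)]

end RadialAux

open RadialAux

theorem radial_schwartz (hR : 0 < R) (hΨ : ContDiff ℝ ∞ Ψ) (hY : ∀ y ≥ Y, Ψ y = 0) :
    ∃ ψ : 𝓢(E3, ℂ), ∀ x, ψ x = ((Ψ (‖x‖ ^ 2 / R ^ 2 - 1 + h) : ℝ) : ℂ) := by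
  set F : E3 → ℝ := fun x => Ψ (‖x‖ ^ 2 / R ^ 2 - 1 + h) with hF
  have h2 : HasCompactSupport F := by
    refine HasCompactSupport.intro (isCompact_closedBall (0 : E3) (R * (|Y| + |h| + 2)))
      fun x hx => ?_
    rw [Metric.mem_closedBall, dist_zero_right, not_le] at hx
    apply hY
    have h3 : |Y| + |h| + 2 < ‖x‖ / R := by
      rw [lt_div_iff₀ hR]
      linarith
    have h5 := abs_nonneg Y
    have h6 := abs_nonneg h
    have h7 := le_abs_self Y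
    have h8 := neg_abs_le h
    rw [ge_iff_le, ← div_pow]
    nlinarith
  have h3 : HasCompactSupport (Complex.ofRealCLM ∘ F) := h2.comp_left rfl
  exact ⟨h3.toSchwartzMap (Complex.ofRealCLM.contDiff.comp (contDiff_F hΨ)), fun x => rfl⟩

theorem radial_laplacian (hR : 0 < R) (hΨ : ContDiff ℝ ∞ Ψ) {ψ : 𝓢(E3, ℂ)}
    (hψ : ∀ x, ψ x = ((Ψ (‖x‖ ^ 2 / R ^ 2 - 1 + h) : ℝ) : ℂ)) (x : E3) :
    ((Δ ψ) x).re = (4 * (‖x‖ ^ 2 / R ^ 2) * deriv (deriv Ψ) (‖x‖ ^ 2 / R ^ 2 - 1 + h) +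
      6 * deriv Ψ (‖x‖ ^ 2 / R ^ 2 - 1 + h)) / R ^ 2 := by
  set F : E3 → ℝ := fun y => Ψ (‖y‖ ^ 2 / R ^ 2 - 1 + h) with hF
  have hFc : ContDiffAt ℝ 2 F x := by
    have h0 : ContDiff ℝ ∞ F := contDiff_F hΨ
    exact (h0.of_le (by norm_cast)).contDiffAt
  have h1 : (ψ : E3 → ℂ) = Complex.ofRealCLM ∘ F := funext hψ
  rw [SchwartzMap.laplacian_apply, h1, hFc.laplacian_CLM_comp_left]
  have h2 := P76h.LapAux.laplacian_radial (A := ‖x‖ ^ 2 + 1)
    (f := fun s => Ψ (s / R ^ 2 - 1 + h))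
    (f' := fun s => deriv Ψ (s / R ^ 2 - 1 + h) * (1 / R ^ 2))
    (f'' := fun s => deriv (deriv Ψ) (s / R ^ 2 - 1 + h) * (1 / R ^ 2) * (1 / R ^ 2))
    (fun s _ => (hd hΨ _).comp s (hg R h s))
    (fun s _ => ((hd (d1 hΨ) _).comp s (hg R h s)).mul_const _) (lt_add_one _) hFc
  show (((Δ F) x : ℝ) : ℂ).re = _
  rw [Complex.ofReal_re, hF, h2]
  ring

theorem radial_flux (hR : 0 < R) (hΨ : ContDiff ℝ ∞ Ψ) :
    ∫ x in Metric.ball (0 : E3) R,
      (4 * (‖x‖ ^ 2 / R ^ 2) * deriv (deriv Ψ) (‖x‖ ^ 2 / R ^ 2 - 1 + h) +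
        6 * deriv Ψ (‖x‖ ^ 2 / R ^ 2 - 1 + h)) / R ^ 2 = 8 * Real.pi * R * deriv Ψ h := by
  have h0 := ball_integral (R := R) (g := fun r =>
    (4 * (r ^ 2 / R ^ 2) * deriv (deriv Ψ) (r ^ 2 / R ^ 2 - 1 + h) +
        6 * deriv Ψ (r ^ 2 / R ^ 2 - 1 + h)) / R ^ 2) hR
  refine h0.trans ?_
  have hc1 : Continuous (deriv Ψ) := (d1 hΨ).continuous
  have hc2 : Continuous (deriv (deriv Ψ)) := (d1 (d1 hΨ)).continuous
  rw [intervalIntegral.integral_eq_sub_of_hasDerivAt (f := fun r : ℝ =>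
    2 / R ^ 2 * (r ^ 3 * deriv Ψ (r ^ 2 / R ^ 2 - 1 + h)))]
  · have e : R ^ 2 / R ^ 2 - 1 + h = h := by
      rw [div_self (pow_ne_zero 2 hR.ne')]
      ring
    rw [e]
    field_simp
    ring
  · intro r _
    have h1 : HasDerivAt (fun r : ℝ => r ^ 2 / R ^ 2 - 1 + h) (2 * r / R ^ 2) r := by
      simpa using (((hasDerivAt_pow 2 r).div_const (R ^ 2)).sub_const 1).add_const h
    have h2 := ((hasDerivAt_pow 3 r).mul ((hd (d1 hΨ) _).comp r h1)).const_mul (2 / R ^ 2)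
    refine h2.congr_deriv ?_
    simp only [Function.comp_apply]
    push_cast
    ring
  · apply Continuous.intervalIntegrable
    fun_prop

theorem radial_defect (hR : 0 < R) (hh : 0 < h) (hh1 : h < 1) (hΨ : ContDiff ℝ ∞ Ψ)
    (h1 : ∀ y ≤ 0, Ψ y = 1) (hΨ0 : ∀ y, 0 ≤ Ψ y) (hΨ1 : ∀ y, Ψ y ≤ 1) :
    ∫ x in Metric.ball (0 : E3) R, (1 - Ψ (‖x‖ ^ 2 / R ^ 2 - 1 + h)) ≤
      2 * Real.pi * R ^ 3 * h := by
  set s := Real.sqrt (1 - h) with hs
  have hs0 : 0 ≤ s := Real.sqrt_nonneg _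
  have hs2 : s ^ 2 = 1 - h := Real.sq_sqrt (by linarith)
  have hs1 : s ≤ 1 := by nlinarith
  have hsub : Metric.ball (0 : E3) (R * s) ⊆ Metric.ball (0 : E3) R :=
    Metric.ball_subset_ball (by nlinarith)
  have hm : MeasurableSet (Metric.ball (0 : E3) R \ Metric.ball (0 : E3) (R * s)) :=
    measurableSet_ball.diff measurableSet_ball
  have hfin : volume (Metric.ball (0 : E3) R \ Metric.ball (0 : E3) (R * s)) ≠ ⊤ :=
    ((measure_mono Set.sdiff_subset).trans_lt measure_ball_lt_top).ne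
  have key : ∫ x in Metric.ball (0 : E3) R, (1 - Ψ (‖x‖ ^ 2 / R ^ 2 - 1 + h)) ≤
      ∫ x in Metric.ball (0 : E3) R \ Metric.ball (0 : E3) (R * s), (1 : ℝ) := by
    rw [← integral_indicator measurableSet_ball, ← integral_indicator hm]
    refine integral_mono_of_nonneg (Eventually.of_forall fun x => ?_)
      ((integrable_indicator_iff hm).2 (integrableOn_const hfin)) (Eventually.of_forall fun x => ?_)
    · refine Set.indicator_nonneg (fun y _ => ?_) x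
      linarith [hΨ1 (‖y‖ ^ 2 / R ^ 2 - 1 + h)]
    · show (Metric.ball (0 : E3) R).indicator _ x ≤
        (Metric.ball (0 : E3) R \ Metric.ball (0 : E3) (R * s)).indicator _ x
      by_cases hx : x ∈ Metric.ball (0 : E3) R
      · by_cases hx' : x ∈ Metric.ball (0 : E3) (R * s)
        · rw [Set.indicator_of_mem hx, Set.indicator_of_notMem fun hc => hc.2 hx']
          rw [Metric.mem_ball, dist_zero_right] at hx'
          have h3 : ‖x‖ ^ 2 / R ^ 2 ≤ 1 - h := by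
            rw [← hs2, div_le_iff₀ (by positivity), ← mul_pow, mul_comm s R]
            exact pow_le_pow_left₀ (norm_nonneg x) hx'.le 2
          rw [h1 _ (by linarith)]
          simp
        · rw [Set.indicator_of_mem hx, Set.indicator_of_mem (Set.mem_sdiff_of_mem hx hx')]
          linarith [hΨ0 (‖x‖ ^ 2 / R ^ 2 - 1 + h)]
      · rw [Set.indicator_of_notMem hx]
        exact Set.indicator_nonneg (fun _ _ => zero_le_one) x
  refine key.trans ?_
  rw [setIntegral_const, smul_eq_mul, mul_one,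
    measureReal_sdiff hsub measurableSet_ball, vol_ball hR.le, vol_ball (by positivity)]
  have h4 : 0 ≤ (1 - s) ^ 2 * (1 + 2 * s) := by positivity
  have h5 : h = 1 - s ^ 2 := by rw [hs2]; ring
  have h6 : 2 * Real.pi * R ^ 3 * h - (R ^ 3 * (Real.pi * 4 / 3) -
      (R * s) ^ 3 * (Real.pi * 4 / 3)) =
      2 / 3 * Real.pi * R ^ 3 * ((1 - s) ^ 2 * (1 + 2 * s)) := by
    rw [h5]
    ring
  have h7 : 0 ≤ 2 / 3 * Real.pi * R ^ 3 * ((1 - s) ^ 2 * (1 + 2 * s)) := by positivity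
  linarith

end Pool.Agent.P76e
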