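import Pool.Agent.Lib.P76e.Num
import Pool.Agent.Lib.P76e.Radial
import Pool.Agent.Lib.P76h.Large

/-! # P76e.Large: at strong coupling `e ≥ 53/R²` for `ρ ≥ 1/(5R³)` -/

open MeasureTheory Filter Topology
open scoped ENNReal NNReal BigOperators ContDiff SchwartzMap Laplacian

namespace Pool.Agent.P76e

open Pool.Agent.P76s Pool.Agent.P76s.SimpleLowerAux Pool.Agent.P76h

theorem volume_ball_real {R : ℝ} (hR : 0 < R) :
    volume.real (Metric.ball (0 : E3) R) = 4 * Real.pi / 3 * R ^ 3 := by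
  rw [measureReal_def, EuclideanSpace.volume_ball_fin_three, ENNReal.toReal_mul, ENNReal.toReal_pow,
    ENNReal.toReal_ofReal hR.le, ENNReal.toReal_ofReal (by positivity)]
  ring

theorem lower_F2 {u F : E3 → ℝ} {B : Set E3} (hB : MeasurableSet B) (hBf : volume B ≠ ⊤)
    (hui : Integrable u) (hu : ∀ᵐ x, 0 ≤ u x ∧ u x ≤ 1) (hF : Continuous F) {C S : ℝ}
    (hFC : ∀ x, |F x| ≤ C) (hFS : ∀ x ∉ B, -F x ≤ S) :
    (∫ x in B, F x) - C * (∫ x in B, (1 - u x)) - S * ∫ x in Bᶜ, u x ≤ ∫ x, u x * F x := by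
  have hC0 : 0 ≤ C := (abs_nonneg _).trans (hFC 0)
  have hbd : ∀ᵐ x, ‖F x‖ ≤ C := ae_of_all _ fun x => by rw [Real.norm_eq_abs]; exact hFC x
  have huF : Integrable fun x => u x * F x := by
    refine (hui.norm.const_mul C).mono' (hui.aestronglyMeasurable.mul
      hF.aestronglyMeasurable) (ae_of_all _ fun x => ?_)
    rw [norm_mul, mul_comm]
    exact mul_le_mul_of_nonneg_right (by rw [Real.norm_eq_abs]; exact hFC x) (norm_nonneg _)
  have hFB : IntegrableOn F B := by
    refine Measure.integrableOn_of_bounded hBf hF.aestronglyMeasurable ?_ (M := C)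
    exact ae_restrict_of_ae hbd
  have h1B : IntegrableOn (fun x => 1 - u x) B :=
    (integrableOn_const hBf).sub hui.integrableOn
  have hsplit := integral_add_compl hB huF
  have h1 : (∫ x in B, F x) - C * (∫ x in B, (1 - u x)) ≤ ∫ x in B, u x * F x := by
    rw [← integral_const_mul, ← integral_sub hFB (h1B.const_mul C)]
    refine setIntegral_mono_ae_restrict (hFB.sub (h1B.const_mul C)) huF.integrableOn
      (ae_restrict_of_ae ?_)
    filter_upwards [hu] with x hx
    have h3 := (abs_le.1 (hFC x)).2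
    show F x - C * (1 - u x) ≤ u x * F x
    nlinarith [hx.1, hx.2]
  have h2 : -(S * ∫ x in Bᶜ, u x) ≤ ∫ x in Bᶜ, u x * F x := by
    rw [← integral_const_mul, ← integral_neg]
    refine setIntegral_mono_ae_restrict (hui.integrableOn.const_mul S).neg huF.integrableOn ?_
    filter_upwards [ae_restrict_of_ae hu, ae_restrict_mem hB.compl] with x hx hxB
    have h3 := hFS x hxB
    show -(S * u x) ≤ u x * F x
    nlinarith [hx.1, hx.2]
  linarith

theorem e_large6 {v : E3 → ℝ} (hvm : Measurable v) (hv : Integrable v) (hv0 : ∀ x, 0 ≤ v x)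
    {R : ℝ} (hR : 0 < R) (hpos : ∀ x : E3, ‖x‖ < R → 0 < v x) :
    ∃ g₁ > 0, ∀ g ≥ g₁, ∀ ρ > 0, 1 ≤ 5 * (ρ * R ^ 3) → ∀ (u : E3 → ℝ) (e : ℝ),
      IsSimpleSolution (fun x => g * v x) ρ u e → (∀ᵐ x, u x ≤ 1) → 53 / R ^ 2 ≤ e := by
  set B := Metric.ball (0 : E3) R with hBdef
  have hB : MeasurableSet B := measurableSet_ball
  have hBf : volume B ≠ ⊤ := measure_ball_lt_top.ne
  have hBpos : 0 < volume B := Metric.measure_ball_pos _ _ hR
  have hbval : volume.real B = 4 * Real.pi / 3 * R ^ 3 := volume_ball_real hR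
  set b := volume.real B with hb
  have hne : 0 < ∫ x, v x := by
    rw [integral_pos_iff_support_of_nonneg hv0 hv]
    refine lt_of_lt_of_le hBpos (measure_mono fun x hx => ?_)
    have : ‖x‖ < R := by simpa [hBdef] using hx
    exact (hpos x this).ne'
  obtain ⟨Ψ, h, Y, S, hh, hh1, hhY, hS0, hΨ, hΨone, hΨ0, hΨ1, hΨY, hΨS, hnum⟩ :=
    exists_profile_num
  obtain ⟨ψ, hψ⟩ := radial_schwartz (R := R) (h := h) hR hΨ hΨY
  obtain ⟨C, hC, hCb⟩ := laplacian_bounded ψ
  set p : E3 → ℝ := fun x => Ψ (‖x‖ ^ 2 / R ^ 2 - 1 + h) with hp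
  have hp0 : ∀ x, 0 ≤ p x := fun x => hΨ0 _
  have hp1 : ∀ x, p x ≤ 1 := fun x => hΨ1 _
  have hpc : Continuous p := hΨ.continuous.comp (by fun_prop)
  set F : E3 → ℝ := fun x => -((Δ ψ) x).re - 212 / R ^ 2 * (1 - p x) with hF
  have hΔc : Continuous fun x => ((Δ ψ) x).re := Complex.continuous_re.comp (Δ ψ).continuous
  have hFc : Continuous F := hΔc.neg.sub (continuous_const.mul (continuous_const.sub hpc))
  set C₁ := C + 212 / R ^ 2 with hC₁
  have hC₁0 : 0 < C₁ := by positivity
  have hFC : ∀ x, |F x| ≤ C₁ := by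
    intro x
    have h1 := abs_le.1 (hCb x)
    have h2 : 0 ≤ 212 / R ^ 2 * (1 - p x) := mul_nonneg (by positivity) (by linarith [hp1 x])
    have h3 : 212 / R ^ 2 * (1 - p x) ≤ 212 / R ^ 2 * 1 := by
      have := hp0 x
      gcongr
      linarith
    rw [abs_le, hC₁]
    constructor
    · show -(C + 212 / R ^ 2) ≤ -((Δ ψ) x).re - 212 / R ^ 2 * (1 - p x)
      linarith [h1.2]
    · show -((Δ ψ) x).re - 212 / R ^ 2 * (1 - p x) ≤ C + 212 / R ^ 2
      have : 0 ≤ 212 / R ^ 2 := by positivity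
      linarith [h1.1]
  have hFS : ∀ x ∉ B, -F x ≤ S / R ^ 2 := by
    intro x hx
    have hx' : R ≤ ‖x‖ := by simpa [hBdef] using hx
    have hy : h ≤ ‖x‖ ^ 2 / R ^ 2 - 1 + h := by
      have : 1 ≤ ‖x‖ ^ 2 / R ^ 2 := by
        rw [le_div_iff₀ (by positivity), one_mul]
        gcongr
      linarith
    have h1 := hΨS _ hy
    have h2 := radial_laplacian hR hΨ hψ x
    show -(-((Δ ψ) x).re - 212 / R ^ 2 * (1 - p x)) ≤ S / R ^ 2
    rw [h2]
    have h3 : ‖x‖ ^ 2 / R ^ 2 - 1 + h + 1 - h = ‖x‖ ^ 2 / R ^ 2 := by ring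
    rw [h3] at h1
    rw [le_div_iff₀ (by positivity)]
    refine le_trans (le_of_eq ?_) h1
    simp only [hp]
    field_simp
    ring
  -- the integral over the ball
  have hΔB : IntegrableOn (fun x => ((Δ ψ) x).re) B := by
    refine Measure.integrableOn_of_bounded hBf hΔc.aestronglyMeasurable ?_ (M := C)
    exact ae_restrict_of_ae (ae_of_all _ fun x => by rw [Real.norm_eq_abs]; exact hCb x)
  have hpB : IntegrableOn (fun x => 1 - p x) B := by
    refine Measure.integrableOn_of_bounded hBf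
      (continuous_const.sub hpc).aestronglyMeasurable ?_ (M := 1)
    refine ae_restrict_of_ae (ae_of_all _ fun x => ?_)
    rw [Real.norm_eq_abs, abs_le]
    constructor <;> linarith [hp0 x, hp1 x]
  have hFB : R * (-(8 * Real.pi * deriv Ψ h) - 212 * (2 * Real.pi * h)) ≤ ∫ x in B, F x := by
    have h1 : ∫ x in B, F x = -(∫ x in B, ((Δ ψ) x).re) - 212 / R ^ 2 * ∫ x in B, (1 - p x) := by
      have hn : IntegrableOn (fun x => -((Δ ψ) x).re) B := hΔB.neg
      simp only [hF]
      rw [integral_sub hn (hpB.const_mul _), integral_neg, integral_const_mul]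
    have h2 : ∫ x in B, ((Δ ψ) x).re = 8 * Real.pi * R * deriv Ψ h := by
      rw [← radial_flux (h := h) hR hΨ]
      exact setIntegral_congr_fun hB fun x _ => radial_laplacian hR hΨ hψ x
    have h3 := radial_defect hR hh hh1 hΨ hΨone hΨ0 hΨ1
    have h4 : 212 / R ^ 2 * ∫ x in B, (1 - p x) ≤ 212 / R ^ 2 * (2 * Real.pi * R ^ 3 * h) :=
      mul_le_mul_of_nonneg_left h3 (by positivity)
    have h5 : 212 / R ^ 2 * (2 * Real.pi * R ^ 3 * h) = R * (212 * (2 * Real.pi * h)) := by
      field_simp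
    rw [h1, h2]
    nlinarith
  set K := C₁ + S / R ^ 2 with hK
  have hK0 : 0 < K := by positivity
  set η := R / (2 * K) with hη
  have hη0 : 0 < η := by positivity
  obtain ⟨s, hs, hlev⟩ := exists_level hvm hpos (half_pos hη0)
  refine ⟨1060 * R / (s * η) + 1, by positivity, ?_⟩
  intro g hg ρ hρ hρR u e hsol hu1
  have hg' : 1060 * R / (s * η) ≤ g := by linarith
  have hg0 : 0 < g := by
    have : 0 ≤ 1060 * R / (s * η) := by positivity
    linarith
  have hv0g : ∀ x, 0 ≤ g * v x := fun x => mul_nonneg hg0.le (hv0 x)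
  have hneg : 0 < ∫ x, g * v x := by rw [P76g.int_scaled]; positivity
  have hu0 := nonneg_of_le_one hρ (hv.const_mul g) hv0g hsol hu1
  have hu : ∀ᵐ x, 0 ≤ u x ∧ u x ≤ 1 := by filter_upwards [hu0, hu1] with x h1 h2 using ⟨h1, h2⟩
  by_contra hcon
  push Not at hcon
  have he0 : 0 < e := e_pos (hv.const_mul g) hv0g hneg hρ hsol hu
  have h1 := int_u_eq (hv.const_mul g) hv0g hneg hρ hsol hu
  have hui := hsol.int_u
  have huv : Integrable fun x => (1 - u x) * v x := by
    refine (hsol.int_S.const_mul g⁻¹).congr (ae_of_all _ fun x => ?_)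
    show g⁻¹ * ((1 - u x) * (g * v x)) = (1 - u x) * v x
    field_simp
  have h2 : g * ∫ x, (1 - u x) * v x = 2 * e / ρ := by
    have h21 : ∫ x, (1 - u x) * (g * v x) = g * ∫ x, (1 - u x) * v x := by
      rw [← integral_const_mul]
      exact integral_congr_ae (ae_of_all _ fun x => by ring)
    have h22 := hsol.energy
    rw [h21] at h22
    rw [eq_div_iff hρ.ne']
    linarith
  have hρi : 1 / ρ ≤ 5 * R ^ 3 := by
    rw [div_le_iff₀ hρ]; linarith
  have h3 : ∫ x in B, (1 - u x) ≤ η := by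
    have h31 := hlev (fun x => 1 - u x)
      (aestronglyMeasurable_const.sub hui.aestronglyMeasurable) huv
      (by filter_upwards [hu] with x hx
          exact ⟨by linarith [hx.2], by linarith [hx.1]⟩) hv0
    refine h31.trans ?_
    have h32 : ∫ x, (1 - u x) * v x ≤ 530 * R / g := by
      rw [le_div_iff₀ hg0, mul_comm, h2]
      calc 2 * e / ρ = 2 * e * (1 / ρ) := by ring
        _ ≤ 2 * (53 / R ^ 2) * (5 * R ^ 3) := by gcongr
        _ = 530 * R := by field_simp; ring
    have h35 : 1 / s * ∫ x, (1 - u x) * v x ≤ η / 2 := by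
      calc 1 / s * ∫ x, (1 - u x) * v x ≤ 1 / s * (530 * R / g) := by gcongr
        _ ≤ η / 2 := by
          rw [one_div_mul_eq_div, div_div, div_le_div_iff₀ (by positivity) (by norm_num)]
          rw [div_le_iff₀ (by positivity)] at hg'
          nlinarith
    linarith
  have h4 : ∫ x in Bᶜ, u x ≤ (5 - 4 * Real.pi / 3) * R ^ 3 + η := by
    have h41 := integral_add_compl hB hui
    have h42 : ∫ x in B, (1 - u x) = b - ∫ x in B, u x := by
      have hc1 : IntegrableOn (fun _ : E3 => (1 : ℝ)) B := integrableOn_const hBf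
      rw [integral_sub hc1 hui.integrableOn, setIntegral_const, smul_eq_mul, mul_one]
    have h43 : ∫ x, u x = 1 / ρ := by
      rw [eq_div_iff hρ.ne', mul_comm]; exact h1
    rw [hbval] at h42
    linarith
  have h5 := lower_F2 hB hBf hui hu hFc hFC hFS
  have h7 := test_ineq (hv.const_mul g) hv0g hneg hρ hsol hu hψ hp0 hp1
  have hup : Integrable fun x => u x * (1 - p x) := by
    refine hui.norm.mono' (hui.aestronglyMeasurable.mul
      (continuous_const.sub hpc).aestronglyMeasurable) (ae_of_all _ fun x => ?_)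
    rw [norm_mul]
    have h71 : ‖1 - p x‖ ≤ 1 := by
      rw [Real.norm_eq_abs, abs_le]
      constructor <;> linarith [hp0 x, hp1 x]
    have := mul_le_mul_of_nonneg_left h71 (norm_nonneg (u x))
    linarith
  have huΔ : Integrable fun x => u x * (-((Δ ψ) x).re) := by
    refine (hui.norm.const_mul C).mono' (hui.aestronglyMeasurable.mul
      hΔc.neg.aestronglyMeasurable) (ae_of_all _ fun x => ?_)
    rw [norm_mul, mul_comm]
    refine mul_le_mul_of_nonneg_right ?_ (norm_nonneg _)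
    rw [norm_neg, Real.norm_eq_abs]
    exact hCb x
  have h8 : ∫ x, u x * F x ≤ 0 := by
    have h81 : ∫ x, u x * F x =
        (∫ x, u x * (-((Δ ψ) x).re)) - 212 / R ^ 2 * ∫ x, u x * (1 - p x) := by
      rw [← integral_const_mul, ← integral_sub huΔ (hup.const_mul _)]
      refine integral_congr_ae (ae_of_all _ fun x => ?_)
      simp only [hF]
      ring
    have h82 : 0 ≤ ∫ x, u x * (1 - p x) := by
      refine integral_nonneg_of_ae ?_
      filter_upwards [hu0] with x hx
      exact mul_nonneg hx (sub_nonneg.2 (hp1 x))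
    have h83 : 4 * e * ∫ x, u x * (1 - p x) ≤ 212 / R ^ 2 * ∫ x, u x * (1 - p x) := by
      refine mul_le_mul_of_nonneg_right ?_ h82
      have h84 : 212 / R ^ 2 = 4 * (53 / R ^ 2) := by ring
      rw [h84]
      linarith
    rw [h81]
    linarith
  have h9 : C₁ * (∫ x in B, (1 - u x)) ≤ C₁ * η := by gcongr
  have h10 : S / R ^ 2 * ∫ x in Bᶜ, u x ≤ S / R ^ 2 * ((5 - 4 * Real.pi / 3) * R ^ 3 + η) := by
    gcongr
  have h11 : S / R ^ 2 * ((5 - 4 * Real.pi / 3) * R ^ 3 + η) =
      R * ((5 - 4 * Real.pi / 3) * S) + S / R ^ 2 * η := by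
    field_simp
  have h12 : C₁ * η + S / R ^ 2 * η = R / 2 := by
    rw [← add_mul, ← hK, hη]; field_simp
  have h13 : R * 1 ≤ R * (-(8 * Real.pi * deriv Ψ h) - 212 * (2 * Real.pi * h) -
      (5 - 4 * Real.pi / 3) * S) := by gcongr
  nlinarith

end Pool.Agent.P76e
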