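import Pool.Agent.Lib.P76e.Large
import Pool.Agent.Lib.P76e.Bump6
import Pool.Agent.Lib.P76f.Main

/-! # P76e.Main: strong coupling, all densities `ρ ≥ 1/(5R³)` -/

open MeasureTheory Filter Topology
open scoped ENNReal NNReal BigOperators ContDiff

namespace Pool.Agent.P76e

open Pool.Agent.P76s Pool.Agent.P76s.SimpleLowerAux Pool.Agent.P76b

variable {v : E3 → ℝ}

/-- the energy per particle is at most `52.86/R²` if `ρ ≤ 0.24/R³`, for every coupling -/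
theorem upper6 {R : ℝ} (hR : 0 < R) (hsupp : ∀ x : E3, R ≤ ‖x‖ → v x = 0)
    {M : ℝ} (hM : ∀ x, v x ≤ M) (hv0 : ∀ x, 0 ≤ v x) :
    ∀ g > 0, ∀ ρ > 0, ρ ≤ 6 / 25 / R ^ 3 → ∃ N₀ : ℕ, ∀ N ≥ N₀,
      groundEnergy N ((N / ρ) ^ (1 / 3 : ℝ))
        (periodize ((N / ρ) ^ (1 / 3 : ℝ)) (pot fun x => g * v x)) ≤
        ENNReal.ofReal (5286 / 100 / R ^ 2 * N) := by
  have hM0 : 0 ≤ M := (hv0 0).trans (hM 0)
  set ℓ₀ := 8 / 5 * R with hℓ₀
  set ℓ₁ := 1609 / 1000 * R with hℓ₁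
  have hℓℓ : ℓ₀ < ℓ₁ := by rw [hℓ₀, hℓ₁]; nlinarith
  have hℓ0 : 0 < ℓ₀ := by positivity
  have hℓ1 : 0 < ℓ₁ := by positivity
  obtain ⟨θ, hθ, hθper, hθsup, hA1, hDA1⟩ := exists_theta6
  set A₁ := ∫ t in Set.Ico (0:ℝ) 1, θ t ^ 2 with hA₁
  set D₁ := ∫ t in Set.Ico (0:ℝ) 1, (deriv θ t) ^ 2 with hD₁
  have hD1 : 0 ≤ D₁ := integral_nonneg fun t => by positivity
  set K := D₁ / A₁ with hK
  have hK0 : 0 ≤ K := by positivity
  have hK1 : K ≤ 902 / 10 := by rw [hK, div_le_iff₀ hA1]; exact hDA1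
  intro g hg0 ρ hρ0 hρρ
  obtain ⟨N₀, hN₀⟩ := eventually_atTop.1 ((tendsto_side hρ0).eventually_ge_atTop
    (max ℓ₀ (ℓ₀ * ℓ₁ / (ℓ₁ - ℓ₀))))
  refine ⟨max N₀ 1, ?_⟩
  intro N hN
  have hNpos : 0 < N := lt_of_lt_of_le one_pos (le_trans (le_max_right _ _) hN)
  have hNpos' : (0 : ℝ) < N := by exact_mod_cast hNpos
  have hLbig := hN₀ N (le_trans (le_max_left _ _) hN)
  set L := ((N : ℝ) / ρ) ^ (1 / 3 : ℝ) with hL
  have hL3 : L ^ 3 = N / ρ := side_cube hρ0 N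
  have hLℓ : ℓ₀ ≤ L := (le_max_left _ _).trans hLbig
  have hLℓ' : ℓ₀ * ℓ₁ / (ℓ₁ - ℓ₀) ≤ L := (le_max_right _ _).trans hLbig
  have hL0 : 0 < L := by linarith
  set m := ⌊L / ℓ₀⌋₊ with hm
  have hm0 : 0 < m := Nat.floor_pos.2 (by rw [le_div_iff₀ hℓ0]; linarith)
  have hm0' : (0 : ℝ) < m := by exact_mod_cast hm0
  have hm1 : (m : ℝ) ≤ L / ℓ₀ := Nat.floor_le (by positivity)
  have hm2 : L / ℓ₀ < m + 1 := Nat.lt_floor_add_one _
  have hcell1 : ℓ₀ ≤ L / m := by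
    rw [le_div_iff₀ hm0']
    rw [le_div_iff₀ hℓ0] at hm1
    linarith
  have hcell2 : L / m ≤ ℓ₁ := by
    rw [div_le_iff₀ hm0']
    have h1 : ℓ₀ * ℓ₁ ≤ L * (ℓ₁ - ℓ₀) := by
      rwa [div_le_iff₀ (by linarith)] at hLℓ'
    rw [div_lt_iff₀ hℓ0] at hm2
    have h2 : L * ℓ₁ ≤ (m + 1) * ℓ₀ * ℓ₁ := by gcongr
    have h3 : L * ℓ₀ ≤ ℓ₁ * m * ℓ₀ := by nlinarith
    exact le_of_mul_le_mul_right h3 hℓ0
  set φ : ℝ → ℝ := fun t => θ (m * t / L) with hφ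
  have hdata : SiteData m L φ (1 / 6) := by
    refine ⟨hm0, hL0, ?_, ?_, by norm_num, ?_⟩
    · exact hθ.comp ((contDiff_const.mul contDiff_id).div_const L)
    · intro t
      have h1 : (m : ℝ) * (t + L / m) / L = m * t / L + 1 := by field_simp
      simp only [hφ]
      rw [h1]
      exact hθper _
    · intro t ht
      have h1 : t / (L / m) = m * t / L := by field_simp
      rw [h1]
      exact hθsup _ ht
  have hA := scale_sq hθ hθper hL0 hm0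
  have hD := scale_deriv hθ hθper hL0 hm0
  have hRm : R ≤ (1 - 2 * (1 / 6)) * (L / m) := by
    have h1 : 8 / 5 * R ≤ L / m := hcell1
    linarith
  obtain ⟨a, ha⟩ := exists_same N hm0
  have hsuppc : ∀ x : E3, (∃ b, R ≤ |x b|) → v x = 0 := by
    rintro x ⟨b, hb⟩
    refine hsupp x (hb.trans ?_)
    simpa using PiLp.norm_apply_le x b
  have hup := cluster_upper (N := N) hdata (A := L * A₁) (D := (m : ℝ) ^ 2 / L * D₁) (R := R)
    (M := g * M) (by positivity) hA hD hRm (by positivity) (w := pot fun x => g * v x)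
    (fun y => ENNReal.ofReal_le_ofReal
      (mul_le_mul_of_nonneg_left (hM (WithLp.toLp 2 y)) hg0.le))
    (fun y hy => by
      unfold pot
      have h1 : v (WithLp.toLp 2 y) = 0 := hsuppc _ hy
      simp only [h1, mul_zero, ENNReal.ofReal_zero]) a
  refine hup.trans (ENNReal.ofReal_le_ofReal ?_)
  set ℓ := L / m with hℓ
  have hℓpos : 0 < ℓ := by positivity
  have hνeq : ρ * ℓ ^ 3 = (N : ℝ) / m ^ 3 := by
    rw [hℓ, div_pow, hL3]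
    field_simp
  have hlt : (N : ℝ) < m ^ 3 := by
    have h1 : ρ * ℓ ^ 3 < 1 := by
      calc ρ * ℓ ^ 3 ≤ 6 / 25 / R ^ 3 * ℓ₁ ^ 3 := by gcongr
        _ = 6 / 25 * (1609 / 1000) ^ 3 := by rw [hℓ₁]; field_simp
        _ < 1 := by norm_num
    rw [hνeq, div_lt_one (by positivity)] at h1
    exact h1
  have hk : N / m ^ 3 = 0 := Nat.div_eq_of_lt (by exact_mod_cast hlt)
  have hsame : (same a : ℝ) = 0 := by
    rw [ha, hk]
    simp
  have hDA : (m : ℝ) ^ 2 / L * D₁ / (L * A₁) = K / ℓ ^ 2 := by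
    rw [hK, hℓ]
    field_simp
  have hc8 : 8 / 5 * R ≤ ℓ := hcell1
  have hKR : K / ℓ ^ 2 ≤ 902 / 10 / (8 / 5 * R) ^ 2 :=
    div_le_div₀ (by norm_num) hK1 (by positivity) (pow_le_pow_left₀ (by positivity) hc8 2)
  have hval : 3 / 2 * (902 / 10 / (8 / 5 * R) ^ 2) ≤ 5286 / 100 / R ^ 2 := by
    have h1 : 3 / 2 * (902 / 10 / (8 / 5 * R) ^ 2) = (3 / 2 * (902 / 10) / (8 / 5) ^ 2) / R ^ 2 := by
      field_simp
    rw [h1]
    exact div_le_div_of_nonneg_right (by norm_num) (by positivity)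
  rw [hDA, hsame, mul_zero, add_zero, mul_comm]
  refine mul_le_mul_of_nonneg_right ?_ hNpos'.le
  linarith

/-- Part A, explicit -/
theorem main_C (hvm : Measurable v) (hv : Integrable v) (hv0 : ∀ x, 0 ≤ v x) {M R : ℝ}
    (hR : 0 < R) (hM : ∀ x, v x ≤ M) (hsupp : ∀ x : E3, R ≤ ‖x‖ → v x = 0)
    (hpos : ∀ x : E3, ‖x‖ < R → 0 < v x) {ρ₂ : ℝ}
    (hρ₂ : ρ₂ * (R ^ 3 / Real.sqrt 2) < 1) :
    ∃ g₁ > 0, ∃ c > 0, ∀ g ≥ g₁, ∀ ρ > 0, 1 ≤ 5 * (ρ * R ^ 3) →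
      (ρ ≤ ρ₂ ∨ 9 / 8 * (M * (R ^ 3 / Real.sqrt 2)) < ∫ x, v x) →
      ∃ N₀ : ℕ, ∀ (u : E3 → ℝ) (e : ℝ),
      IsSimpleSolution (fun x => g * v x) ρ u e → (∀ᵐ x, u x ≤ 1) → ∀ N ≥ N₀,
      groundEnergy N ((N / ρ) ^ (1 / 3 : ℝ))
        (periodize ((N / ρ) ^ (1 / 3 : ℝ)) (pot fun x => g * v x)) ≤
        ENNReal.ofReal ((e - c) * N) := by
  have hR3 : 0 < R ^ 3 := by positivity
  have hρ₀ : 0 < 6 / 25 / R ^ 3 := by positivity
  have hb : 1 < 6 / 25 / R ^ 3 * volume.real (Metric.ball (0 : E3) R) := by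
    rw [volume_ball_real hR]
    have h1 : 6 / 25 / R ^ 3 * (4 * Real.pi / 3 * R ^ 3) = 8 / 25 * Real.pi := by
      field_simp; ring
    rw [h1]
    have := Real.pi_gt_d2
    linarith
  obtain ⟨g₁, hg₁, hlarge⟩ := e_large6 hvm hv hv0 hR hpos
  obtain ⟨g₂, hg₂, c, hc, hB⟩ := P76f.main_B hvm hv hv0 hR hM hsupp
    (Ω := Metric.ball (0 : E3) R) measurableSet_ball measure_ball_lt_top.ne
    (fun x hx => hpos x (by simpa using hx)) hρ₀ hb hρ₂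
  refine ⟨max g₁ g₂, by positivity, min (14 / 100 / R ^ 2) (c * g₂ * (6 / 25 / R ^ 3)),
    by positivity, ?_⟩
  intro g hg ρ hρ hρR hor
  have hgg₁ : g₁ ≤ g := (le_max_left _ _).trans hg
  have hgg₂ : g₂ ≤ g := (le_max_right _ _).trans hg
  have hg0 : 0 < g := lt_of_lt_of_le hg₁ hgg₁
  rcases le_total ρ (6 / 25 / R ^ 3) with hle | hge
  · obtain ⟨N₀, hN₀⟩ := upper6 hR hsupp hM hv0 g hg0 ρ hρ hle
    refine ⟨N₀, fun u e hs hu N hN => (hN₀ N hN).trans (ENNReal.ofReal_le_ofReal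
      (mul_le_mul_of_nonneg_right ?_ (Nat.cast_nonneg N)))⟩
    have h1 := hlarge g hgg₁ ρ hρ hρR u e hs hu
    have h2 := min_le_left (14 / 100 / R ^ 2) (c * g₂ * (6 / 25 / R ^ 3))
    have h3 : 5286 / 100 / R ^ 2 + 14 / 100 / R ^ 2 = 53 / R ^ 2 := by
      field_simp; norm_num
    linarith
  · obtain ⟨N₀, hN₀⟩ := hB g hgg₂ ρ hge hor
    refine ⟨N₀, fun u e hs hu N hN => (hN₀ u e hs hu N hN).trans (ENNReal.ofReal_le_ofReal
      (mul_le_mul_of_nonneg_right ?_ (Nat.cast_nonneg N)))⟩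
    have h1 := min_le_right (14 / 100 / R ^ 2) (c * g₂ * (6 / 25 / R ^ 3))
    have h2 : c * g₂ * (6 / 25 / R ^ 3) ≤ c * g * ρ := by gcongr
    linarith

end Pool.Agent.P76e
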