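import Pool.Agent.Lib.P76e.Profile

/-! # P76e.Num: the numbers: `β = 17/2`, `κ = 212`, `h = 1/1000`, `k = 10^6`, `δ = 1/100` in exists_profile
`-Ψ'(h) = β (1+s) exp (-s) exp (-β χ(h)) ≥ 8.5 (1 - 10⁻⁶)(1 - 8.5/1000) ≥ 8.42` (`s = 1/(kh) = 1/1000`,
`χ(h) ≤ h`), `S = 212 + exp (8.5/10⁶) 34 exp ((289 - 51 χ'(h) - 212)/34 - 1) + 1/100 ≤ 246.02`
(the second exponent is negative), so
`8 π · 8.42 - 212 · 2π/1000 - (5 - 4π/3) · 246.02 ≥ 211.6 - 1.4 - 199.7 > 10`. -/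

open MeasureTheory Filter Topology
open scoped ENNReal NNReal BigOperators ContDiff

namespace Pool.Agent.P76e

theorem exists_profile_num :
    ∃ (Ψ : ℝ → ℝ) (h Y S : ℝ), 0 < h ∧ h < 1 ∧ h < Y ∧ 0 ≤ S ∧ ContDiff ℝ ∞ Ψ ∧
      (∀ y ≤ 0, Ψ y = 1) ∧ (∀ y, 0 ≤ Ψ y) ∧ (∀ y, Ψ y ≤ 1) ∧ (∀ y ≥ Y, Ψ y = 0) ∧
      (∀ y ≥ h, 4 * (y + 1 - h) * deriv (deriv Ψ) y + 6 * deriv Ψ y + 212 * (1 - Ψ y) ≤ S) ∧
      1 ≤ -(8 * Real.pi * deriv Ψ h) - 212 * (2 * Real.pi * h) - (5 - 4 * Real.pi / 3) * S := by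
  obtain ⟨Ψ, Y, hY, hcd, h0, hn, h1, hz, hd, hm⟩ := exists_profile (β := 17 / 2) (κ := 212)
    (h := 1 / 1000) (k := 10 ^ 6) (δ := 1 / 100) (by norm_num) (by norm_num) (by norm_num)
    (by norm_num) (by norm_num) (by norm_num) (by norm_num)
  obtain ⟨c, hc⟩ : ∃ c, c = deriv (chi (10 ^ 6)) (1 / 1000) := ⟨_, rfl⟩
  have hc1 : 999999 / 1000000 ≤ c := by
    rw [hc, deriv_chi_of_pos (by norm_num) (by norm_num)]
    have e1 : 1 / ((10 : ℝ) ^ 6 * (1 / 1000)) = 1 / 1000 := by norm_num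
    rw [e1]
    have e2 := Real.add_one_le_exp (-(1 / 1000 : ℝ))
    nlinarith
  have hx : chi (10 ^ 6) (1 / 1000) ≤ 1 / 1000 := chi_le (by norm_num) (by norm_num)
  obtain ⟨E, hE⟩ : ∃ E, E = Real.exp (-(17 / 2 * chi (10 ^ 6) (1 / 1000))) := ⟨_, rfl⟩
  have hE1 : 9915 / 10000 ≤ E := by
    have e1 := Real.add_one_le_exp (-(17 / 2 * chi (10 ^ 6) (1 / 1000)))
    rw [hE]
    linarith
  rw [← hc, ← hE] at hd
  rw [← hc] at hm
  obtain ⟨F, hF⟩ : ∃ F, F = Real.exp ((17 / 2 : ℝ) / 10 ^ 6) := ⟨_, rfl⟩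
  obtain ⟨G, hG⟩ : ∃ G, G = Real.exp ((4 * (17 / 2) ^ 2 - 6 * (17 / 2) * c - 212) /
    (4 * (17 / 2)) - 1) := ⟨_, rfl⟩
  rw [← hF, ← hG] at hm
  have hF0 : 0 < F := by rw [hF]; exact Real.exp_pos _
  have hG0 : 0 < G := by rw [hG]; exact Real.exp_pos _
  have hF1 : F ≤ 10001 / 10000 := by
    have e1 := Real.add_one_le_exp (-((17 / 2 : ℝ) / 10 ^ 6))
    have e2 : F * Real.exp (-((17 / 2 : ℝ) / 10 ^ 6)) = 1 := by
      rw [hF, ← Real.exp_add, add_neg_cancel, Real.exp_zero]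
    have e3 : F * (-((17 / 2 : ℝ) / 10 ^ 6) + 1) ≤ F * Real.exp (-((17 / 2 : ℝ) / 10 ^ 6)) :=
      mul_le_mul_of_nonneg_left e1 hF0.le
    rw [e2] at e3
    linarith
  have hG1 : G ≤ 1 := by
    rw [hG]
    apply Real.exp_le_one_iff.2
    have : (4 * (17 / 2) ^ 2 - 6 * (17 / 2) * c - 212) / (4 * (17 / 2)) ≤ 1 := by
      rw [div_le_one (by norm_num)]
      linarith
    linarith
  have hFG : F * (4 * (17 / 2) * G) ≤ 34004 / 1000 := by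
    have e1 : F * G ≤ 10001 / 10000 * 1 := mul_le_mul hF1 hG1 hG0.le (by norm_num)
    linarith
  have hS0 : 0 ≤ 212 + F * (4 * (17 / 2) * G) + 1 / 100 := by positivity
  refine ⟨Ψ, 1 / 1000, Y, 212 + F * (4 * (17 / 2) * G) + 1 / 100, by norm_num, by norm_num, hY,
    hS0, hcd, h0, hn, h1, hz, hm, ?_⟩
  rw [hd]
  have hp1 := Real.pi_gt_d4
  have hp2 := Real.pi_lt_d4
  have hp0 := Real.pi_pos
  have hcE : 999999 / 1000000 * (9915 / 10000) ≤ c * E :=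
    mul_le_mul hc1 hE1 (by norm_num) (by linarith)
  have hA : 8 * (31415 / 10000) * (17 / 2 * (999999 / 1000000 * (9915 / 10000))) ≤
      8 * Real.pi * (17 / 2 * (c * E)) := by
    refine mul_le_mul (by linarith) (by linarith) (by norm_num) (by positivity)
  have hB : (5 - 4 * Real.pi / 3) * (212 + F * (4 * (17 / 2) * G) + 1 / 100) ≤
      (5 - 4 * (31415 / 10000) / 3) * (212 + 34004 / 1000 + 1 / 100) := by
    refine mul_le_mul (by linarith) (by linarith) hS0 (by norm_num)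
  have hC : -(8 * Real.pi * -(17 / 2 * c * E)) = 8 * Real.pi * (17 / 2 * (c * E)) := by ring
  rw [hC]
  have hD : 212 * (2 * Real.pi * (1 / 1000)) ≤ 14 / 10 := by linarith
  linarith

end Pool.Agent.P76e
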