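import Pool.Agent.Lib.P76e.Chi

/-! # P76e.Profile: the radial profile `Ψ = q ω(·/L)`, `q y = exp (-β chi k y)`, `ω` a smooth cut-off
(`ω = 1` on `(-∞, 1]`, `ω = 0` on `[2, ∞)`, e.g. `Real.smoothTransition (2 - y)`), `L` large (`L ≥ h`).
For `y ≥ h`: `q' = -β χ' q`, `q'' = (β² χ'² - β χ'') q ≤ β² q`, `q ≤ exp (β/k) exp (-β y)` (chi_ge),
`χ'(y) ≥ χ'(h)`; main part `≤ κ + ω q (c₁ + 4β² y)`, `c₁ = 4β² - 6β χ'(h) - κ ≥ 0`, and
`(c₁ + 4β² y) exp (-β y) ≤ 4β exp (c₁/(4β) - 1)` (from `x ≤ exp (x-1)`); the terms with `ω'/L`, `ω''/L²`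
are at most `C/L` (`(y+1) exp (-β y)` is bounded, `ω', ω''` are bounded), `≤ δ` for `L` large. -/

open MeasureTheory Filter Topology
open scoped ENNReal NNReal BigOperators ContDiff

namespace Pool.Agent.P76e

namespace ProfileAux

/-- the cut-off -/
noncomputable def om (y : ℝ) : ℝ := Real.smoothTransition (2 - y)

theorem om_cd : ContDiff ℝ ∞ om :=
  Real.smoothTransition.contDiff.comp (contDiff_const.sub contDiff_id)

theorem om_one {y : ℝ} (hy : y ≤ 1) : om y = 1 :=
  Real.smoothTransition.one_of_one_le (by linarith)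

theorem om_zero {y : ℝ} (hy : 2 ≤ y) : om y = 0 :=
  Real.smoothTransition.zero_of_nonpos (by linarith)

theorem om_nonneg (y : ℝ) : 0 ≤ om y := Real.smoothTransition.nonneg _

theorem om_le_one (y : ℝ) : om y ≤ 1 := Real.smoothTransition.le_one _

theorem om_bound : ∃ W : ℝ, 0 ≤ W ∧ ∀ y, |deriv om y| ≤ W ∧ |deriv (deriv om) y| ≤ W := by
  have h1 : Continuous (deriv om) := (contDiff_infty_iff_deriv.1 om_cd).2.continuous
  have h2 : Continuous (deriv (deriv om)) :=
    (contDiff_infty_iff_deriv.1 (contDiff_infty_iff_deriv.1 om_cd).2).2.continuous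
  obtain ⟨W1, hW1⟩ := (isCompact_Icc (a := (0 : ℝ)) (b := 3)).exists_bound_of_continuousOn
    h1.continuousOn
  obtain ⟨W2, hW2⟩ := (isCompact_Icc (a := (0 : ℝ)) (b := 3)).exists_bound_of_continuousOn
    h2.continuousOn
  have key : ∀ (y c : ℝ), om =ᶠ[𝓝 y] (fun _ => c) → deriv om y = 0 ∧ deriv (deriv om) y = 0 := by
    intro y c h
    have h3 : deriv om =ᶠ[𝓝 y] fun _ => (0 : ℝ) := by
      have h4 := h.deriv
      simpa using h4
    refine ⟨h3.self_of_nhds, ?_⟩
    have h5 := h3.deriv_eq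
    rw [h5]
    simp
  refine ⟨max 0 (max W1 W2), le_max_left _ _, fun y => ?_⟩
  by_cases hy : y ∈ Set.Icc (0 : ℝ) 3
  · exact ⟨(hW1 y hy).trans ((le_max_left _ _).trans (le_max_right _ _)),
      (hW2 y hy).trans ((le_max_right _ _).trans (le_max_right _ _))⟩
  · have h6 : deriv om y = 0 ∧ deriv (deriv om) y = 0 := by
      rw [Set.mem_Icc, not_and_or, not_le, not_le] at hy
      rcases hy with hy | hy
      · refine key y 1 ?_
        filter_upwards [Iio_mem_nhds hy] with z hz
        exact om_one (le_trans (le_of_lt hz) zero_le_one)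
      · refine key y 0 ?_
        filter_upwards [Ioi_mem_nhds hy] with z hz
        exact om_zero (by have := Set.mem_Ioi.1 hz; linarith)
    rw [h6.1, h6.2, abs_zero]
    exact ⟨le_max_left _ _, le_max_left _ _⟩

/-- the exponential factor -/
noncomputable def q (β k y : ℝ) : ℝ := Real.exp (-(β * chi k y))

theorem q_pos (β k y : ℝ) : 0 < q β k y := Real.exp_pos _

theorem hasDerivAt_q (β k y : ℝ) :
    HasDerivAt (q β k) (-(β * deriv (chi k) y) * q β k y) y := by
  have h1 : HasDerivAt (chi k) (deriv (chi k) y) y :=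
    ((contDiff_infty_iff_deriv.1 (contDiff_chi k)).1 y).hasDerivAt
  have h2 := (h1.const_mul β).neg.exp
  have h3 : Real.exp (-(β * chi k y)) * -(β * deriv (chi k) y) =
      -(β * deriv (chi k) y) * q β k y := by
    unfold q; ring
  rw [← h3]
  exact h2

theorem hasDerivAt_q1 (β k y : ℝ) :
    HasDerivAt (fun y => -(β * deriv (chi k) y) * q β k y)
      (((β * deriv (chi k) y) ^ 2 - β * deriv (deriv (chi k)) y) * q β k y) y := by
  have h0 := (contDiff_infty_iff_deriv.1 (contDiff_chi k)).2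
  have h1 : HasDerivAt (deriv (chi k)) (deriv (deriv (chi k)) y) y :=
    ((contDiff_infty_iff_deriv.1 h0).1 y).hasDerivAt
  have h2 := (h1.const_mul β).neg.mul (hasDerivAt_q β k y)
  refine h2.congr_deriv ?_
  simp only [Pi.neg_apply]
  ring

theorem hasDerivAt_om (L y : ℝ) :
    HasDerivAt (fun y => om (y / L)) (deriv om (y / L) / L) y := by
  have h1 : HasDerivAt om (deriv om (y / L)) (y / L) :=
    ((contDiff_infty_iff_deriv.1 om_cd).1 _).hasDerivAt
  have h2 : HasDerivAt (fun y : ℝ => y / L) (1 / L) y := (hasDerivAt_id y).div_const L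
  have h3 := h1.comp y h2
  refine h3.congr_deriv ?_
  ring

theorem hasDerivAt_om1 (L y : ℝ) :
    HasDerivAt (fun y => deriv om (y / L) / L) (deriv (deriv om) (y / L) / L / L) y := by
  have h0 := (contDiff_infty_iff_deriv.1 om_cd).2
  have h1 : HasDerivAt (deriv om) (deriv (deriv om) (y / L)) (y / L) :=
    ((contDiff_infty_iff_deriv.1 h0).1 _).hasDerivAt
  have h2 : HasDerivAt (fun y : ℝ => y / L) (1 / L) y := (hasDerivAt_id y).div_const L
  have h3 := (h1.comp y h2).div_const L
  refine h3.congr_deriv ?_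
  ring

/-- the profile -/
noncomputable def P (β k L y : ℝ) : ℝ := q β k y * om (y / L)

theorem deriv_P (β k L : ℝ) : deriv (P β k L) = fun y =>
    -(β * deriv (chi k) y) * q β k y * om (y / L) + q β k y * (deriv om (y / L) / L) := by
  funext y
  exact ((hasDerivAt_q β k y).mul (hasDerivAt_om L y)).deriv

theorem deriv_deriv_P (β k L y : ℝ) : deriv (deriv (P β k L)) y =
    ((β * deriv (chi k) y) ^ 2 - β * deriv (deriv (chi k)) y) * q β k y * om (y / L) +
      2 * (-(β * deriv (chi k) y) * q β k y * (deriv om (y / L) / L)) +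
      q β k y * (deriv (deriv om) (y / L) / L / L) := by
  rw [deriv_P]
  have h1 := ((hasDerivAt_q1 β k y).mul (hasDerivAt_om L y)).add
    ((hasDerivAt_q β k y).mul (hasDerivAt_om1 L y))
  have h2 := h1.deriv
  refine Eq.trans ?_ (h2.trans ?_)
  · rfl
  · ring

theorem q_le {β k : ℝ} (hβ : 0 < β) (hk : 0 < k) (y : ℝ) :
    q β k y ≤ Real.exp (β / k) * Real.exp (-(β * y)) := by
  unfold q
  rw [← Real.exp_add, Real.exp_le_exp]
  have h1 := mul_le_mul_of_nonneg_left (chi_ge hk y) hβ.le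
  have h2 : β * (y - 1 / k) = β * y - β / k := by ring
  rw [h2] at h1
  linarith

theorem P_cd (β k L : ℝ) : ContDiff ℝ ∞ (P β k L) := by
  unfold P q
  exact ((contDiff_const.mul (contDiff_chi k)).neg.exp).mul (om_cd.comp (contDiff_id.div_const L))

end ProfileAux

open ProfileAux

theorem exists_profile {β κ h k δ : ℝ} (hβ : 0 < β) (hκ : 0 ≤ κ) (hh : 0 < h) (hh1 : h < 1)
    (hk : 0 < k) (hδ : 0 < δ) (hc : 0 ≤ 4 * β ^ 2 - 6 * β - κ) :
    ∃ (Ψ : ℝ → ℝ) (Y : ℝ), h < Y ∧ ContDiff ℝ ∞ Ψ ∧ (∀ y ≤ 0, Ψ y = 1) ∧ (∀ y, 0 ≤ Ψ y) ∧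
      (∀ y, Ψ y ≤ 1) ∧ (∀ y ≥ Y, Ψ y = 0) ∧
      deriv Ψ h = -(β * deriv (chi k) h * Real.exp (-(β * chi k h))) ∧
      ∀ y ≥ h, 4 * (y + 1 - h) * deriv (deriv Ψ) y + 6 * deriv Ψ y + κ * (1 - Ψ y) ≤
        κ + Real.exp (β / k) * (4 * β *
          Real.exp ((4 * β ^ 2 - 6 * β * deriv (chi k) h - κ) / (4 * β) - 1)) + δ := by
  obtain ⟨W, hW0, hW⟩ := om_bound
  set E : ℝ := Real.exp (β / k) with hE
  have hE0 : 0 < E := Real.exp_pos _
  set C : ℝ := E * (1 / β + 1) * (W * (8 * β + 10)) with hC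
  have hC0 : 0 ≤ C := by positivity
  set L : ℝ := 1 + C / δ with hL
  have hL1 : 1 ≤ L := by
    have : 0 ≤ C / δ := by positivity
    linarith
  have hL0 : 0 < L := by linarith
  have hCL : C / L ≤ δ := by
    rw [div_le_iff₀ hL0, hL]
    have : δ * (1 + C / δ) = δ + C := by field_simp
    rw [this]; linarith
  refine ⟨P β k L, 2 * L, by linarith, P_cd β k L, ?_, ?_, ?_, ?_, ?_, ?_⟩
  · intro y hy
    unfold P q
    rw [chi_of_nonpos hk hy, om_one (le_trans (div_nonpos_of_nonpos_of_nonneg hy hL0.le)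
      zero_le_one)]
    simp
  · intro y
    exact mul_nonneg (q_pos β k y).le (om_nonneg _)
  · intro y
    have h1 : q β k y ≤ 1 := by
      unfold q
      rw [Real.exp_le_one_iff]
      have := mul_nonneg hβ.le (chi_nonneg hk y)
      linarith
    exact mul_le_one₀ h1 (om_nonneg _) (om_le_one _)
  · intro y hy
    unfold P
    rw [om_zero (by rw [le_div_iff₀ hL0]; exact hy), mul_zero]
  · have h1 : om (h / L) = 1 := om_one (by rw [div_le_one hL0]; linarith)
    have h2 : deriv om (h / L) = 0 := by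
      have h3 : om =ᶠ[𝓝 (h / L)] fun _ => (1 : ℝ) := by
        have h4 : h / L < 1 := by rw [div_lt_one hL0]; linarith
        filter_upwards [Iio_mem_nhds h4] with z hz
        exact om_one (le_of_lt hz)
      rw [h3.deriv_eq]
      simp
    rw [deriv_P]
    simp only [h1, h2]
    unfold q
    ring
  · intro y hy
    have hy0 : 0 < y := lt_of_lt_of_le hh hy
    rw [deriv_deriv_P, deriv_P]
    unfold P
    set Q : ℝ := q β k y with hQ
    set o : ℝ := om (y / L) with ho
    set d1 : ℝ := deriv (chi k) y with hd1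
    set d2 : ℝ := deriv (deriv (chi k)) y with hd2
    set w1 : ℝ := deriv om (y / L) with hw1
    set w2 : ℝ := deriv (deriv om) (y / L) with hw2
    set dh : ℝ := deriv (chi k) h with hdh
    have hQ0 : 0 < Q := q_pos β k y
    have ho0 : 0 ≤ o := om_nonneg _
    have ho1 : o ≤ 1 := om_le_one _
    have hd1m : 0 ≤ d1 ∧ d1 ≤ 1 := deriv_chi_mem hk y
    have hdhm : 0 ≤ dh ∧ dh ≤ 1 := deriv_chi_mem hk h
    have hd2n : 0 ≤ d2 := deriv_deriv_chi_nonneg hk y
    have hmono : dh ≤ d1 := monotone_deriv_chi hk hy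
    have hW1 : |w1| ≤ W := (hW _).1
    have hW2 : |w2| ≤ W := (hW _).2
    have hQle : Q ≤ E * Real.exp (-(β * y)) := q_le hβ hk y

    set c₁ : ℝ := 4 * β ^ 2 - 6 * β * dh - κ with hc₁
    have hc₁0 : 0 ≤ c₁ := by
      have := mul_le_mul_of_nonneg_left hdhm.2 hβ.le
      rw [hc₁]; nlinarith
    have hmain1 : 4 * (y + 1 - h) * (((β * d1) ^ 2 - β * d2) * Q * o) +
        6 * (-(β * d1) * Q * o) + κ * (1 - Q * o) ≤ κ + Q * o * (c₁ + 4 * β ^ 2 * y) := by
      have hQo : 0 ≤ Q * o := mul_nonneg hQ0.le ho0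
      have e1 : (β * d1) ^ 2 - β * d2 ≤ β ^ 2 := by
        have t1 : d1 ^ 2 ≤ 1 := by nlinarith [hd1m.1, hd1m.2]
        have t2 : β ^ 2 * d1 ^ 2 ≤ β ^ 2 * 1 := mul_le_mul_of_nonneg_left t1 (by positivity)
        have t3 : 0 ≤ β * d2 := mul_nonneg hβ.le hd2n
        nlinarith
      have e2 : 4 * (y + 1 - h) * ((β * d1) ^ 2 - β * d2) ≤ 4 * (y + 1) * β ^ 2 := by
        calc 4 * (y + 1 - h) * ((β * d1) ^ 2 - β * d2) ≤ 4 * (y + 1 - h) * β ^ 2 :=
              mul_le_mul_of_nonneg_left e1 (by linarith)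
          _ ≤ 4 * (y + 1) * β ^ 2 := by
              apply mul_le_mul_of_nonneg_right _ (by positivity)
              linarith
      have e3 : β * dh ≤ β * d1 := mul_le_mul_of_nonneg_left hmono hβ.le
      have e4 : 4 * (y + 1 - h) * ((β * d1) ^ 2 - β * d2) + 6 * (-(β * d1)) - κ ≤
          c₁ + 4 * β ^ 2 * y := by
        rw [hc₁]; nlinarith
      have e5 := mul_le_mul_of_nonneg_left e4 hQo
      nlinarith
    have hmain2 : Q * o * (c₁ + 4 * β ^ 2 * y) ≤
        E * (4 * β * Real.exp (c₁ / (4 * β) - 1)) := by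
      have e0 : 0 ≤ c₁ + 4 * β ^ 2 * y := by positivity
      have e1 : Q * o ≤ E * Real.exp (-(β * y)) :=
        (mul_le_of_le_one_right hQ0.le ho1).trans hQle
      have e2 : Real.exp (-(β * y)) * (c₁ + 4 * β ^ 2 * y) ≤
          4 * β * Real.exp (c₁ / (4 * β) - 1) := by
        have e3 : c₁ + 4 * β ^ 2 * y = 4 * β * (c₁ / (4 * β) + β * y) := by
          field_simp
        have e4 : c₁ / (4 * β) + β * y ≤ Real.exp (c₁ / (4 * β) + β * y - 1) := by
          have := Real.add_one_le_exp (c₁ / (4 * β) + β * y - 1)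
          linarith
        rw [e3]
        calc Real.exp (-(β * y)) * (4 * β * (c₁ / (4 * β) + β * y))
            ≤ Real.exp (-(β * y)) * (4 * β * Real.exp (c₁ / (4 * β) + β * y - 1)) := by
              gcongr
          _ = 4 * β * Real.exp (c₁ / (4 * β) - 1) := by
              have : Real.exp (-(β * y)) * (4 * β * Real.exp (c₁ / (4 * β) + β * y - 1)) =
                  4 * β * (Real.exp (-(β * y)) * Real.exp (c₁ / (4 * β) + β * y - 1)) := by ring
              rw [this, ← Real.exp_add]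
              congr 2
              ring
      calc Q * o * (c₁ + 4 * β ^ 2 * y)
          ≤ E * Real.exp (-(β * y)) * (c₁ + 4 * β ^ 2 * y) :=
            mul_le_mul_of_nonneg_right e1 e0
        _ = E * (Real.exp (-(β * y)) * (c₁ + 4 * β ^ 2 * y)) := by ring
        _ ≤ E * (4 * β * Real.exp (c₁ / (4 * β) - 1)) :=
            mul_le_mul_of_nonneg_left e2 hE0.le

    have hyQ : (y + 1) * Q ≤ E * (1 / β + 1) := by
      have e1 : y * Real.exp (-(β * y)) ≤ 1 / β := by
        rw [Real.exp_neg, ← div_eq_mul_inv, div_le_div_iff₀ (Real.exp_pos _) hβ]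
        have := Real.add_one_le_exp (β * y)
        nlinarith
      have e2 : Real.exp (-(β * y)) ≤ 1 := by
        rw [Real.exp_le_one_iff]
        have := mul_pos hβ hy0
        linarith
      calc (y + 1) * Q ≤ (y + 1) * (E * Real.exp (-(β * y))) :=
            mul_le_mul_of_nonneg_left hQle (by linarith)
        _ = E * (y * Real.exp (-(β * y)) + Real.exp (-(β * y))) := by ring
        _ ≤ E * (1 / β + 1) := mul_le_mul_of_nonneg_left (add_le_add e1 e2) hE0.le
    have hx1 : |w1 / L| ≤ W / L := by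
      rw [abs_div, abs_of_pos hL0]
      exact div_le_div_of_nonneg_right hW1 hL0.le
    have hx2 : |w2 / L / L| ≤ W / L := by
      rw [abs_div, abs_div, abs_of_pos hL0]
      calc |w2| / L / L ≤ W / L / L := by gcongr
        _ ≤ W / L := div_le_self (by positivity) hL1
    have hWL : 0 ≤ W / L := by positivity
    have hextra : 4 * (y + 1 - h) * (2 * (-(β * d1) * Q * (w1 / L)) + Q * (w2 / L / L)) +
        6 * (Q * (w1 / L)) ≤ δ := by
      have a1 : -(β * d1) * (w1 / L) ≤ β * (W / L) := by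
        have t1 : -(d1 * (w1 / L)) ≤ W / L := by
          have s1 := neg_abs_le (w1 / L)
          have s2 := le_abs_self (w1 / L)
          have s3 : -(w1 / L) ≤ W / L := by linarith
          calc -(d1 * (w1 / L)) = d1 * (-(w1 / L)) := by ring
            _ ≤ d1 * (W / L) := mul_le_mul_of_nonneg_left s3 hd1m.1
            _ ≤ 1 * (W / L) := mul_le_mul_of_nonneg_right hd1m.2 hWL
            _ = W / L := one_mul _
        have t2 := mul_le_mul_of_nonneg_left t1 hβ.le
        linarith [t2, (by ring : β * -(d1 * (w1 / L)) = -(β * d1) * (w1 / L))]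
      have a2 : w2 / L / L ≤ W / L := (le_abs_self _).trans hx2
      have a3 : w1 / L ≤ W / L := (le_abs_self _).trans hx1
      have a4 : 2 * (-(β * d1) * Q * (w1 / L)) + Q * (w2 / L / L) ≤
          Q * ((2 * β + 1) * (W / L)) := by
        have t : 2 * (-(β * d1) * (w1 / L)) + w2 / L / L ≤ (2 * β + 1) * (W / L) := by linarith
        have t' := mul_le_mul_of_nonneg_left t hQ0.le
        linarith [t', (by ring : Q * (2 * (-(β * d1) * (w1 / L)) + w2 / L / L) =
          2 * (-(β * d1) * Q * (w1 / L)) + Q * (w2 / L / L))]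
      have a5 : 4 * (y + 1 - h) * (2 * (-(β * d1) * Q * (w1 / L)) + Q * (w2 / L / L)) ≤
          4 * (y + 1) * (Q * ((2 * β + 1) * (W / L))) := by
        calc 4 * (y + 1 - h) * (2 * (-(β * d1) * Q * (w1 / L)) + Q * (w2 / L / L)) ≤
            4 * (y + 1 - h) * (Q * ((2 * β + 1) * (W / L))) :=
              mul_le_mul_of_nonneg_left a4 (by linarith)
          _ ≤ 4 * (y + 1) * (Q * ((2 * β + 1) * (W / L))) := by
              apply mul_le_mul_of_nonneg_right _ (by positivity)
              linarith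
      have a6 : 6 * (Q * (w1 / L)) ≤ 6 * ((y + 1) * Q * (W / L)) := by
        have t1 : Q * (w1 / L) ≤ Q * (W / L) := mul_le_mul_of_nonneg_left a3 hQ0.le
        have t2 : Q * (W / L) ≤ (y + 1) * (Q * (W / L)) :=
          le_mul_of_one_le_left (by positivity) (by linarith)
        linarith [t1, t2, (by ring : (y + 1) * (Q * (W / L)) = (y + 1) * Q * (W / L))]
      have a7 : 4 * (y + 1) * (Q * ((2 * β + 1) * (W / L))) + 6 * ((y + 1) * Q * (W / L)) =
          (y + 1) * Q * ((8 * β + 10) * (W / L)) := by ring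
      have a8 : (y + 1) * Q * ((8 * β + 10) * (W / L)) ≤
          E * (1 / β + 1) * ((8 * β + 10) * (W / L)) :=
        mul_le_mul_of_nonneg_right hyQ (by positivity)
      have a9 : E * (1 / β + 1) * ((8 * β + 10) * (W / L)) = C / L := by
        rw [hC]; ring
      linarith
    have hsplit : 4 * (y + 1 - h) * (((β * d1) ^ 2 - β * d2) * Q * o +
        2 * (-(β * d1) * Q * (w1 / L)) + Q * (w2 / L / L)) +
        6 * (-(β * d1) * Q * o + Q * (w1 / L)) + κ * (1 - Q * o) =
        (4 * (y + 1 - h) * (((β * d1) ^ 2 - β * d2) * Q * o) +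
          6 * (-(β * d1) * Q * o) + κ * (1 - Q * o)) +
        (4 * (y + 1 - h) * (2 * (-(β * d1) * Q * (w1 / L)) + Q * (w2 / L / L)) +
          6 * (Q * (w1 / L))) := by ring
    rw [hsplit]
    linarith

end Pool.Agent.P76e
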